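import Mathlib
import Pool.Agent.N423.HB.Drs

/-!
# The Dress conjecture for graphs with a dominating clique

Every closed graph with a nonempty clique `R` such that every other vertex has a neighbour in `R`
has the rank conjectured by Dress. The case `|R| = 1` (a vertex adjacent to all others) is Tay's
theorem.

Proof (`Pool.Agent.N423.HB.hub_ind`): such a graph is complete, or it has a vertex `v` outside of
`R` whose removal decreases the rank by at most four (a count of degrees), and then the edges at `v`
are independent of the others, or the neighbours of `v` are a clique `K` with at least four
vertices and at most one further vertex, whose edge to `v` is independent of the others (by the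
theorem on implied pairs `Pool.Agent.N423.DT.t_k5t`, `Pool.Agent.N423.DT.tgn4`). The nullity of the
rigidity matrix and the sum of the nullities of the maximal cliques decrease by the same number.

Paper proof and assembly: helper423. Lean parts: helpers 118 (`Pool.Agent.N423.HB.cva`), 322
(`Pool.Agent.N423.HB.stp`), and, for `Pool.Agent.N423.DT.t_k5t`, helpers 233, 360, 578, 803, 222,
401, 519, 232, 499, 787, 441, 286, 51, 879, 221, 935, 697, 495, 273, 492, 596, 368, 27, 55, 559, 50,
407, 433, 654, 723, 475, 768.
-/

set_option autoImplicit false

namespace Pool.Agent.Results.MP_d237f6_co.DressDominatingClique

open Pool.Agent.H789R5 Pool.Agent.N423.HB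

/-- **The Dress conjecture holds for graphs with a dominating clique**: `r₃(G) = cval(G)` for every
graph `G` which is closed in the generic rigidity matroid of `ℝ³` and has a nonempty clique `R` such
that every vertex outside of `R` has a neighbour in `R`. -/
theorem result (V : Type) [Fintype V] (G : SimpleGraph V) (hG : ClosedG G) (R : Finset V)
    (hR : R.Nonempty) (hclique : G.IsClique (R : Set V))
    (hdom : ∀ v, v ∉ R → ∃ r ∈ R, G.Adj v r) : (genRank 3 G : ℤ) = cval G := by
  classical
  exact drs hG hR hclique hdom

end Pool.Agent.Results.MP_d237f6_co.DressDominatingClique
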